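import Pool.Agent.H329.Forward
import Pool.Agent.H329.Structure
import Pool.Agent.H329.Pos
import Pool.Agent.H329.Comp
import Pool.Agent.H329.Arith
import Pool.Agent.H329.TokLayout
import Pool.Agent.H329.EdgesBdry
import Pool.Agent.H329.Contacts
import Pool.Agent.H329.Local
import Pool.Agent.H329.Euler
import Pool.Agent.H329.Iso
import Pool.Agent.H329.InstP
import Pool.Agent.H329.Num
import Pool.Agent.H329.Sums
import Pool.Agent.H329.HexIneq
import Pool.Agent.H329.Codes
import Pool.Agent.H329.CodeLe
import Pool.Agent.H329.Force
import Pool.Agent.H329.GridSat
import Pool.Agent.H329.PolyRed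
import Pool.Agent.H329.InNP
import Pool.Agent.H329.Back329
import Pool.Agent.H329.FullLetters
import Pool.Agent.H329.FullNodup
import Pool.Agent.H329.FullPath
import Pool.Agent.H329.FullH
import Pool.Agent.H329.GrpWord
import Pool.Agent.H329.GrpPath
import Pool.Agent.H329.GrpPts
import Pool.Agent.H329.Piece
import Pool.Agent.H329.HexCount
import Pool.Agent.H329.StrandBox
import Pool.Agent.H329.StrandNodup
import Pool.Agent.H329.StrandPath
import Pool.Agent.H329.StrandDisj6
import Pool.Agent.H329.StrandHex6
import Pool.Agent.H329.BinOk

/-!
# HP folding on the triangular lattice is NP-complete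

The HP folding problem on the triangular lattice: given a word over `{H, P}` (coded as a list of
booleans, `true` for `H`) and a number `k`, is there a self-avoiding walk placing the word in the
triangular lattice with at least `k` contacts?  It is in `NP`, and `NP`-hard under
polynomial-time many-one reductions.
-/

namespace Pool.Agent.Results.MP_dec383_lc.TriangularHPNPComplete

open Pool.Agent.H329 Pool.Agent.NPC

theorem structure_holds : S_Structure :=
  Structure_proof (Pos_proof EdgesBdry_proof Contacts_proof Local_proof) Comp_proof Arith_proof
    TokLayout_proof

theorem num_holds : S_Num := Num_proof (Sums_proof Inst_proof) Inst_proof HexIneq_proof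

theorem forward_holds : S_Forward :=
  Forward_proof structure_holds Inst_proof num_holds Codes_proof CodeLe_proof Force_proof

theorem grpPath_holds : S_GrpPath := GrpPath_proof StrandPath_proof StrandLetters_proof Piece_proof

theorem grpPts_holds : S_GrpPts :=
  GrpPts_proof StrandBox_proof StrandNodup_proof StrandDisj_proof Piece_proof PieceDisj_proof

theorem backward_holds : S_Backward :=
  Backward_proof' (FullLetters_proof grpPath_holds (GrpWord_proof CoreLetters_proof BinOk_proof)
      BinOk_proof)
    (FullPath_proof grpPath_holds BinOk_proof)
    (FullNodup_proof BinOk_proof grpPts_holds StrandBox_proof StrandDisj_proof)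
    (FullH_proof BinOk_proof grpPts_holds StrandHex_proof) Contacts_proof TokLayout_proof
    Inst_proof (Sums_proof Inst_proof) HexCard_proof HexEdges_proof HexIneq_proof BinOk_proof

/-- The HP folding problem on the triangular lattice is `NP`-complete. -/
theorem result : InNPP HPFold ∧ NPHardP HPFold :=
  final forward_holds backward_holds GridSat_proof PolyRed_proof InNP_proof

end Pool.Agent.Results.MP_dec383_lc.TriangularHPNPComplete
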